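import Pool.Agent.H550R2.Lift.GISym

/-!
# Two fixed nonisomorphic graphs that no small locally symmetric semidefinite program tells apart

For every set `V` with `r ≥ 10500 k` disjoint quadruples of vertices there are two nonisomorphic
graphs on `V` with all degrees at most nine which every semidefinite program of order less than
`3 ^ (k / 2)` treats in the same way, if only the program is symmetric under the even permutations
of each of the `r` quadruples; this also holds for programs which read pairs of graphs and are
symmetric under the even permutations of the quadruples of the first graph only, whatever the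
second graph is.  The two graphs do not depend on the program.  Conversely every semidefinite
program that decides isomorphism (or nonisomorphism) of pairs of graphs on `V` can be made symmetric
on any `r` quadruples when its order is multiplied by `12 ^ r`.

The two parts are the theorems `gi_pair` and `gi_upper` of the starting files
`Pool/Agent/H550R2/Lift/GILift.lean` and `Pool/Agent/H550R2/Lift/GISym.lean` (by helper550 and the
helpers named in that development), which had not been handed in; the starting result
`MP_128e7d_lc.RobustIsoSDP` treats programs that separate isomorphic pairs of graphs from pairs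
that are far from isomorphic.
-/

set_option autoImplicit false

namespace Pool.Agent.Results.MP_128e7d_lc.FixedPairSDP

open Pool.Agent.H550R2.Lift Pool.Agent.H550R2.SymGI

/-- 1. Let `blk 0, …, blk (r - 1)` be disjoint quadruples of elements of the finite set `V` and
`10500 k ≤ r`, `0 < k`. There are nonisomorphic graphs `G`, `G'` on `V` with degrees at most nine
such that each semidefinite program of order less than `3 ^ (k / 2)` which is symmetric under the
even permutations of each `blk i` accepts both or none of `G`, `G'`, and such that for every graph
`H` on `V` each semidefinite program of order less than `3 ^ (k / 2)` for pairs of graphs, which is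
symmetric under the even permutations of the quadruples `blk i` of the first graph, accepts both
or none of `(G, H)`, `(G', H)`.

2. Let a semidefinite program decide isomorphism (or nonisomorphism) of pairs of graphs on `V`.
Then there is such a program of `12 ^ r` times its order which is symmetric under the even
permutations of the quadruples `blk i` of the first graph. -/
theorem result :
    (∀ (V : Type) [Fintype V] (r k : ℕ), 0 < k → 10500 * k ≤ r → ∀ blk : Fin r → (Fin 4 ↪ V),
      (Pairwise fun i j => Disjoint (Set.range (blk i)) (Set.range (blk j))) →
      ∃ G G' : SimpleGraph V, (∀ v, (G.neighborSet v).ncard ≤ 9) ∧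
        (∀ v, (G'.neighborSet v).ncard ≤ 9) ∧ ¬ Nonempty (G ≃g G') ∧
        (∀ (D : Type) [Fintype D] [DecidableEq D] (P : SDP (Sym2 V) D),
          (∀ i, P.SymOn edPerm (blk i)) → Fintype.card D ^ 2 < 3 ^ k →
          (P.Acc (gvec G) ↔ P.Acc (gvec G'))) ∧
        ∀ (D : Type) [Fintype D] [DecidableEq D] (P : SDP (Sym2 (V ⊕ V)) D),
          (∀ i, P.SymOn edPerm (fstB (blk i))) → Fintype.card D ^ 2 < 3 ^ k →
          ∀ H : SimpleGraph V, (P.Acc (gvec (G ⊕g H)) ↔ P.Acc (gvec (G' ⊕g H)))) ∧
    (∀ (V D : Type) [Fintype D] [DecidableEq D] (P : SDP (Sym2 (V ⊕ V)) D) (b : Prop),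
      (∀ G H : SimpleGraph V, (P.Acc (gvec (G ⊕g H)) ↔ (Nonempty (G ≃g H) ↔ b))) →
      ∀ (r : ℕ) (blk : Fin r → (Fin 4 ↪ V)),
      (Pairwise fun i j => Disjoint (Set.range (blk i)) (Set.range (blk j))) →
      ∃ (D' : Type) (_ : Fintype D') (_ : DecidableEq D') (P' : SDP (Sym2 (V ⊕ V)) D'),
        Fintype.card D' = 12 ^ r * Fintype.card D ∧ (∀ i, P'.SymOn edPerm (fstB (blk i))) ∧
        ∀ G H : SimpleGraph V, (P'.Acc (gvec (G ⊕g H)) ↔ (Nonempty (G ≃g H) ↔ b))) :=
  ⟨fun V _ r k hk0 hr blk hd => gi_pair V r k hk0 hr blk hd,
    fun V D _ _ P b hP r blk hd => gi_upper V D P b hP r blk hd⟩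

end Pool.Agent.Results.MP_128e7d_lc.FixedPairSDP
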