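import Pool.Agent.H831R3.MM.Iso

/-!
# The isomorphism is essentially the shortest locally checkable proof of isomorphism

A proof system for graph isomorphism with local tests: there are `t` possible proofs, and a proof
is verified by tests (any number of them, arbitrary functions), each of which may depend on the
whole proof, but looks at no more than `k` pairs of vertices of the two graphs. Taking the bijection
as the proof gives `t = n !` and `k = 2`.

We show `t ≥ n ! / (2 k ^ (n - 1))` for all `n` and `k`. So, for every `k = n ^ o(1)`, the proofs
must have `(1 - o(1)) n log n` bits, as many as the isomorphism; in other words depth-three circuits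
with bottom fan-in `k` for graph isomorphism need size `n ^ ((1 - o(1)) n)`.

More generally, for every fixed graph `H` on `n` vertices with `e` edges, the tests may depend
on `H` in an arbitrary way, and `t ≥ n ! / (|Aut H| k ^ e)` to recognise the graphs isomorphic
to `H`. The lower bound for graph isomorphism is the case that `H` is a path.
-/

set_option autoImplicit false

namespace Pool.Agent.Results.MP_128e7d_lc.LocalProofs

open Pool.Agent.H831R3.MM

/-- `IsoScheme n t k`: pairs of isomorphic graphs on `n` vertices are those that pass all the tests
of one of `t` sets of tests that look at no more than `k` pairs of vertices.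
`RecScheme H t k`: the same for the graphs isomorphic to the fixed graph `H`. -/
theorem result :
    (∀ n t k : ℕ, 1 ≤ n → IsoScheme n t k → n.factorial ≤ 2 * t * k ^ (n - 1)) ∧
    (∀ n : ℕ, IsoScheme n n.factorial 2) ∧
    (∀ (n t k : ℕ) (H : SimpleGraph (Fin n)), RecScheme H t k →
      n.factorial ≤ t * k ^ Nat.card H.edgeSet * Nat.card (H ≃g H)) :=
  iso_main

end Pool.Agent.Results.MP_128e7d_lc.LocalProofs
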