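import Pool.Agent.H831R3.GI.Interp

/-!
# No order-free reduction of an NP-complete problem to graph isomorphism

`Fml K` is the infinitary logic `L^K` (first-order logic with the variables `x_0, …, x_{K-1}`,
each of which may be quantified again and again, and with arbitrary conjunctions) on graphs,
closed under a quantifier for graph isomorphism: from formulas `δ₁, η₁, δ₂, η₂` one forms the
formula saying that the two graphs which these formulas define on the `d`-tuples and on the
`e`-tuples of elements are isomorphic. These quantifiers have all dimensions and may be nested, so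
a formula is a reduction to graph isomorphism with arbitrarily many, also adaptive, queries. It may
mention the vertices of the input graph only through equality and adjacency (there is no order on
them).

The theorem: such formulas define neither the graphs with an even number of vertices nor the
graphs whose vertex set has a partition into triangles (an NP-complete problem).
-/

set_option autoImplicit false

open Pool.Agent.H831R3.GI

namespace Pool.Agent.Results.MP_128e7d_lc.OrderFreeReductions

/-- Formulas over the vocabulary of graphs with the variables `x_i`, `i < K`: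
`x_i = x_j`, `x_i ~ x_j`, negation, conjunction of an arbitrary family of formulas,
`∃ x_i φ`, and the graph isomorphism quantifier. In `iso d e x y δ₁ η₁ δ₂ η₂` the distinct variables
`x (inl 0), …, x (inl (d-1))` are bound in `δ₁` and the `2 d` distinct variables `x s` are bound in
`η₁`; similarly for `y`, `e`, `δ₂` and `η₂`. -/
inductive Fml (K : ℕ) : Type 1
  | eq (i j : Fin K) : Fml K
  | adj (i j : Fin K) : Fml K
  | neg (φ : Fml K) : Fml K
  | conj (ι : Type) (φ : ι → Fml K) : Fml K
  | ex (i : Fin K) (φ : Fml K) : Fml K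
  | iso (d e : ℕ) (x : Fin d ⊕ Fin d ↪ Fin K) (y : Fin e ⊕ Fin e ↪ Fin K)
      (δ₁ η₁ δ₂ η₂ : Fml K) : Fml K

/-- Truth of a formula in the graph `G` under the assignment `v` of vertices to the variables.
`iso d e x y δ₁ η₁ δ₂ η₂` says that `G₁` and `G₂` are isomorphic: the vertices of `G₁` are the
`d`-tuples satisfying `δ₁`, and two different ones are adjacent if they satisfy `η₁` in one of the
two orders; `G₂` is defined on `e`-tuples in the same way by `δ₂` and `η₂`. -/
def Sat {K : ℕ} {A : Type} (G : SimpleGraph A) : Fml K → (Fin K → A) → Prop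
  | .eq i j, v => v i = v j
  | .adj i j, v => G.Adj (v i) (v j)
  | .neg φ, v => ¬ Sat G φ v
  | .conj _ φ, v => ∀ i, Sat G (φ i) v
  | .ex i φ, v => ∃ a, Sat G φ (Function.update v i a)
  | .iso d e x y δ₁ η₁ δ₂ η₂, v =>
      Nonempty (
        interp (fun a : Fin d → A => Sat G δ₁ (setv v (Function.Embedding.inl.trans x) a))
          (fun a b => Sat G η₁ (setv v x (Sum.elim a b))) ≃g
        interp (fun a : Fin e → A => Sat G δ₂ (setv v (Function.Embedding.inl.trans y) a))
          (fun a b => Sat G η₂ (setv v y (Sum.elim a b))))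

/-- the edgeless or the complete graph -/
def base (c : Bool) (n : ℕ) : SimpleGraph (Fin n) := if c then ⊤ else ⊥

/-- the assignments with a given pattern on which the isomorphism query is answered positively
beyond all bounds -/
lemma dichotomy (K : ℕ) : ∃ N : ℕ, ∀ (d e : ℕ) (x : Fin d ⊕ Fin d ↪ Fin K)
    (y : Fin e ⊕ Fin e ↪ Fin K) (D E D' E' : Pt K → Prop) (κ : Pt K),
    (∀ (n : ℕ) (v : Fin K → Fin n), pat v = κ → Nonempty (Gr x D E v ≃g Gr y D' E' v)) ∨
    (∀ n ≥ N, ∀ v : Fin K → Fin n, pat v = κ → ¬ Nonempty (Gr x D E v ≃g Gr y D' E' v)) := by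
  classical
  -- for fixed data
  have h1 : ∀ (d e : ℕ) (x : Fin d ⊕ Fin d ↪ Fin K) (y : Fin e ⊕ Fin e ↪ Fin K)
      (D E D' E' : Pt K → Prop) (κ : Pt K), ∃ N : ℕ,
      (∀ (n : ℕ) (v : Fin K → Fin n), pat v = κ → Nonempty (Gr x D E v ≃g Gr y D' E' v)) ∨
      (∀ n ≥ N, ∀ v : Fin K → Fin n, pat v = κ →
        ¬ Nonempty (Gr x D E v ≃g Gr y D' E' v)) := by
    intro d e x y D E D' E' κ
    by_cases hinf : {n : ℕ | ∃ v : Fin K → Fin n, pat v = κ ∧
        Nonempty (Gr x D E v ≃g Gr y D' E' v)}.Infinite
    · exact ⟨0, Or.inl fun n v hv => iso_all x y D E D' E' κ hinf n v hv⟩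
    · rw [Set.not_infinite] at hinf
      obtain ⟨M, hM⟩ := hinf.bddAbove
      refine ⟨M + 1, Or.inr fun n hn v hv h => ?_⟩
      have := hM ⟨v, hv, h⟩
      omega
  -- finitely many data
  have h2 : ∀ d e : Fin (K + 1), ∃ N : ℕ, ∀ (x : Fin d ⊕ Fin d ↪ Fin K)
      (y : Fin e ⊕ Fin e ↪ Fin K) (D E D' E' : Pt K → Prop) (κ : Pt K),
      (∀ (n : ℕ) (v : Fin K → Fin n), pat v = κ → Nonempty (Gr x D E v ≃g Gr y D' E' v)) ∨
      (∀ n ≥ N, ∀ v : Fin K → Fin n, pat v = κ →
        ¬ Nonempty (Gr x D E v ≃g Gr y D' E' v)) := by
    intro d e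
    choose f hf using h1 d e
    let g : (Fin d ⊕ Fin d ↪ Fin K) × (Fin e ⊕ Fin e ↪ Fin K) × (Pt K → Prop) × (Pt K → Prop) ×
      (Pt K → Prop) × (Pt K → Prop) × Pt K → ℕ := fun t =>
        f t.1 t.2.1 t.2.2.1 t.2.2.2.1 t.2.2.2.2.1 t.2.2.2.2.2.1 t.2.2.2.2.2.2
    obtain ⟨N, hN⟩ := (Set.finite_range g).bddAbove
    refine ⟨N, fun x y D E D' E' κ => ?_⟩
    rcases hf x y D E D' E' κ with h | h
    · exact Or.inl h
    · refine Or.inr fun n hn => h n (le_trans ?_ hn)
      exact hN ⟨(x, y, D, E, D', E', κ), rfl⟩
  choose f hf using h2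
  obtain ⟨N, hN⟩ := (Set.finite_range fun t : Fin (K + 1) × Fin (K + 1) => f t.1 t.2).bddAbove
  refine ⟨N, fun d e x y D E D' E' κ => ?_⟩
  have hd : d < K + 1 := by
    have := Fintype.card_le_of_embedding x
    simp only [Fintype.card_sum, Fintype.card_fin] at this
    omega
  have he : e < K + 1 := by
    have := Fintype.card_le_of_embedding y
    simp only [Fintype.card_sum, Fintype.card_fin] at this
    omega
  rcases hf ⟨d, hd⟩ ⟨e, he⟩ x y D E D' E' κ with h | h
  · exact Or.inl h
  · refine Or.inr fun n hn => h n (le_trans ?_ hn)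
    exact hN ⟨(⟨d, hd⟩, ⟨e, he⟩), rfl⟩

/-- Beyond a bound that depends only on the number of variables, each formula is equivalent on
edgeless graphs, and on complete graphs, to a condition on the equality pattern. -/
lemma elim (K : ℕ) (c : Bool) : ∃ N : ℕ, ∀ φ : Fml K, ∃ C : Pt K → Prop, ∀ n ≥ N,
    ∀ v : Fin K → Fin n, Sat (base c n) φ v ↔ C (pat v) := by
  classical
  obtain ⟨N₀, hN₀⟩ := dichotomy K
  refine ⟨max N₀ K, fun φ => ?_⟩
  induction φ with
  | eq i j => exact ⟨fun π => π i j, fun n _ v => Iff.rfl⟩
  | adj i j =>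
    refine ⟨fun π => c = true ∧ ¬ π i j, fun n _ v => ?_⟩
    cases c <;> simp [Sat, base, pat]
  | neg φ ih =>
    obtain ⟨C, hC⟩ := ih
    exact ⟨fun π => ¬ C π, fun n hn v => not_congr (hC n hn v)⟩
  | conj ι φ ih =>
    choose C hC using ih
    exact ⟨fun π => ∀ i, C i π, fun n hn v => forall_congr' fun i => hC i n hn v⟩
  | ex i φ ih =>
    obtain ⟨C, hC⟩ := ih
    refine ⟨fun π => ∃ w : Fin K → ℕ, (∀ j, j ≠ i → ∀ l, l ≠ i → (w j = w l ↔ π j l)) ∧
      C (pat w), fun n hn v => ?_⟩
    have hK : K ≤ n := (le_max_right _ _).trans hn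
    constructor
    · rintro ⟨a, ha⟩
      rw [hC n hn] at ha
      refine ⟨fun j => (Function.update v i a j : ℕ), fun j hj l hl => ?_, ?_⟩
      · simp only [Function.update_of_ne hj, Function.update_of_ne hl, pat, Fin.val_inj]
      · have : pat (fun j => (Function.update v i a j : ℕ)) = pat (Function.update v i a) := by
          funext j l
          simp only [pat, Fin.val_inj]
        rw [this]; exact ha
    · rintro ⟨w, hw, hCw⟩
      by_cases hex : ∃ j, j ≠ i ∧ w i = w j
      · obtain ⟨j, hji, hj⟩ := hex
        refine ⟨v j, ?_⟩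
        rw [hC n hn]
        have : pat (Function.update v i (v j)) = pat w := by
          funext l m
          apply propext
          simp only [pat]
          by_cases hl : l = i
          · subst hl
            by_cases hm : m = l
            · subst hm; simp
            · rw [Function.update_self, Function.update_of_ne hm, hj, hw j hji m hm]
              rfl
          · by_cases hm : m = i
            · subst hm
              rw [Function.update_self, Function.update_of_ne hl, hj, hw l hl j hji]
              rfl
            · rw [Function.update_of_ne hl, Function.update_of_ne hm, hw l hl m hm]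
              rfl
        rw [this]; exact hCw
      · push Not at hex
        obtain ⟨a, ha⟩ : ∃ a : Fin n, a ∉ (Finset.univ.erase i).image v := by
          by_contra hcon
          push Not at hcon
          have h1 : (Finset.univ : Finset (Fin n)) ⊆ (Finset.univ.erase i).image v :=
            fun a _ => hcon a
          have h2 := Finset.card_le_card h1
          have h3 : ((Finset.univ.erase i).image v).card ≤ K - 1 := by
            refine Finset.card_image_le.trans ?_
            rw [Finset.card_erase_of_mem (Finset.mem_univ i)]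
            simp
          have h4 : 0 < K := i.pos
          simp only [Finset.card_univ, Fintype.card_fin] at h2
          omega
        have ha' : ∀ j, j ≠ i → a ≠ v j := by
          intro j hj h
          exact ha (Finset.mem_image.2 ⟨j, by simp [hj], h.symm⟩)
        refine ⟨a, ?_⟩
        rw [hC n hn]
        have : pat (Function.update v i a) = pat w := by
          funext l m
          apply propext
          simp only [pat]
          by_cases hl : l = i
          · subst hl
            by_cases hm : m = l
            · subst hm; simp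
            · rw [Function.update_self, Function.update_of_ne hm]
              exact iff_of_false (ha' m hm) (hex m hm)
          · by_cases hm : m = i
            · subst hm
              rw [Function.update_self, Function.update_of_ne hl]
              exact iff_of_false (ha' l hl).symm (fun h => hex l hl h.symm)
            · rw [Function.update_of_ne hl, Function.update_of_ne hm, hw l hl m hm]
              rfl
        rw [this]; exact hCw
  | iso d e x y δ₁ η₁ δ₂ η₂ ih1 ih2 ih3 ih4 =>
    obtain ⟨D, hD⟩ := ih1
    obtain ⟨E, hE⟩ := ih2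
    obtain ⟨D', hD'⟩ := ih3
    obtain ⟨E', hE'⟩ := ih4
    have hkey : ∀ n ≥ max N₀ K, ∀ v : Fin K → Fin n,
        Sat (base c n) (.iso d e x y δ₁ η₁ δ₂ η₂) v ↔
          Nonempty (Gr x D E v ≃g Gr y D' E' v) := by
      intro n hn v
      have e1 : (fun a : Fin d → Fin n =>
          Sat (base c n) δ₁ (setv v (Function.Embedding.inl.trans x) a)) =
          fun a => D (pat (setv v (Function.Embedding.inl.trans x) a)) :=
        funext fun a => propext (hD n hn _)
      have e2 : (fun a b : Fin d → Fin n => Sat (base c n) η₁ (setv v x (Sum.elim a b))) =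
          fun a b => E (pat (setv v x (Sum.elim a b))) :=
        funext fun a => funext fun b => propext (hE n hn _)
      have e3 : (fun a : Fin e → Fin n =>
          Sat (base c n) δ₂ (setv v (Function.Embedding.inl.trans y) a)) =
          fun a => D' (pat (setv v (Function.Embedding.inl.trans y) a)) :=
        funext fun a => propext (hD' n hn _)
      have e4 : (fun a b : Fin e → Fin n => Sat (base c n) η₂ (setv v y (Sum.elim a b))) =
          fun a b => E' (pat (setv v y (Sum.elim a b))) :=
        funext fun a => funext fun b => propext (hE' n hn _)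
      unfold Gr
      rw [← e1, ← e2, ← e3, ← e4]
      rfl
    refine ⟨fun π => ∀ (n : ℕ) (v : Fin K → Fin n), pat v = π →
      Nonempty (Gr x D E v ≃g Gr y D' E' v), fun n hn v => ?_⟩
    rw [hkey n hn v]
    constructor
    · intro h
      rcases hN₀ d e x y D E D' E' (pat v) with h1 | h1
      · exact h1
      · exact absurd h (h1 n ((le_max_left _ _).trans hn) v rfl)
    · intro h
      exact h n v rfl

/-- The vertex set of `G` has a partition into triangles: the classes of a suitable function `c`
on the vertices are cliques with three elements. -/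
def TrianglePartition {n : ℕ} (G : SimpleGraph (Fin n)) : Prop :=
  ∃ c : Fin n → ℕ, ∀ u, G.IsNClique 3 (Finset.univ.filter fun w => c w = c u)

lemma trianglePartition_top (n : ℕ) : TrianglePartition (⊤ : SimpleGraph (Fin n)) ↔ 3 ∣ n := by
  classical
  constructor
  · rintro ⟨c, hc⟩
    have h1 := Finset.card_eq_sum_card_image c (Finset.univ : Finset (Fin n))
    rw [Finset.sum_congr rfl (g := fun _ => 3)] at h1
    · simp only [Finset.card_univ, Fintype.card_fin, Finset.sum_const, smul_eq_mul] at h1
      exact ⟨_, by rw [h1, mul_comm]⟩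
    · intro k hk
      obtain ⟨u, -, rfl⟩ := Finset.mem_image.1 hk
      exact (hc u).card_eq
  · rintro ⟨m, rfl⟩
    refine ⟨fun u => u / 3, fun u => ?_⟩
    rw [SimpleGraph.isNClique_iff]
    refine ⟨?_, ?_⟩
    · rw [SimpleGraph.isClique_iff]
      intro a _ b _ hab
      exact hab
    · have hu := u.2
      have e1 : 3 * ((u : ℕ) / 3) < 3 * m := by omega
      have e2 : 3 * ((u : ℕ) / 3) + 1 < 3 * m := by omega
      have e3 : 3 * ((u : ℕ) / 3) + 2 < 3 * m := by omega
      have : (Finset.univ.filter fun w : Fin (3 * m) => (w : ℕ) / 3 = (u : ℕ) / 3) =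
          {⟨_, e1⟩, ⟨_, e2⟩, ⟨_, e3⟩} := by
        ext w
        simp only [Finset.mem_filter, Finset.mem_univ, true_and, Finset.mem_insert,
          Finset.mem_singleton, Fin.ext_iff]
        omega
      rw [this]
      rw [Finset.card_insert_of_notMem, Finset.card_insert_of_notMem, Finset.card_singleton]
      · simp [Fin.ext_iff]
      · simp [Fin.ext_iff]

/-- Infinitary finite-variable formulas with nested graph isomorphism queries: on edgeless and on
complete graphs of size beyond a bound depending only on the number of variables, truth depends only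
on the equality pattern of the assignment. Hence they define neither the graphs with an even number
of vertices nor the graphs whose vertices have a partition into triangles. -/
theorem result :
    (∀ K : ℕ, ∃ N : ℕ, ∀ (φ : Fml K) (m n : ℕ), N ≤ m → N ≤ n →
      ∀ (v : Fin K → Fin m) (w : Fin K → Fin n), (∀ i j, v i = v j ↔ w i = w j) →
        ((Sat (⊥ : SimpleGraph (Fin m)) φ v ↔ Sat (⊥ : SimpleGraph (Fin n)) φ w) ∧
          (Sat (⊤ : SimpleGraph (Fin m)) φ v ↔ Sat (⊤ : SimpleGraph (Fin n)) φ w))) ∧
    (∀ (K : ℕ) (φ : Fml K), ¬ ∀ (n : ℕ) (G : SimpleGraph (Fin n)) (v : Fin K → Fin n),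
      Sat G φ v ↔ Even n) ∧
    (∀ (K : ℕ) (φ : Fml K), ¬ ∀ (n : ℕ) (G : SimpleGraph (Fin n)) (v : Fin K → Fin n),
      Sat G φ v ↔ TrianglePartition G) := by
  have hmain : ∀ K : ℕ, ∃ N : ℕ, ∀ (φ : Fml K) (m n : ℕ), N ≤ m → N ≤ n →
      ∀ (v : Fin K → Fin m) (w : Fin K → Fin n), (∀ i j, v i = v j ↔ w i = w j) →
        ((Sat (⊥ : SimpleGraph (Fin m)) φ v ↔ Sat (⊥ : SimpleGraph (Fin n)) φ w) ∧
          (Sat (⊤ : SimpleGraph (Fin m)) φ v ↔ Sat (⊤ : SimpleGraph (Fin n)) φ w)) := by
    intro K
    obtain ⟨N₁, h₁⟩ := elim K false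
    obtain ⟨N₂, h₂⟩ := elim K true
    refine ⟨max N₁ N₂, fun φ m n hm hn v w hvw => ?_⟩
    have hp : pat v = pat w := funext fun i => funext fun j => propext (hvw i j)
    obtain ⟨C₁, hC₁⟩ := h₁ φ
    obtain ⟨C₂, hC₂⟩ := h₂ φ
    constructor
    · have a := hC₁ m ((le_max_left _ _).trans hm) v
      have b := hC₁ n ((le_max_left _ _).trans hn) w
      rw [← hp] at b
      exact a.trans b.symm
    · have a := hC₂ m ((le_max_right _ _).trans hm) v
      have b := hC₂ n ((le_max_right _ _).trans hn) w
      rw [← hp] at b
      exact a.trans b.symm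
  refine ⟨hmain, fun K φ h => ?_, fun K φ h => ?_⟩
  · obtain ⟨N, hN⟩ := hmain K
    have h1 := (hN φ (2 * N + 2) (2 * N + 3) (by omega) (by omega) (fun _ => 0) (fun _ => 0)
      (fun i j => by simp)).1
    rw [h, h] at h1
    have h2 : Even (2 * N + 2) := ⟨N + 1, by ring⟩
    have h3 := h1.1 h2
    rw [Nat.even_iff] at h3
    omega
  · obtain ⟨N, hN⟩ := hmain K
    have h1 := (hN φ (3 * N + 3) (3 * N + 4) (by omega) (by omega) (fun _ => 0) (fun _ => 0)
      (fun i j => by simp)).2
    rw [h, h, trianglePartition_top, trianglePartition_top] at h1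
    have h3 := h1.1 ⟨N + 1, by ring⟩
    omega

end Pool.Agent.Results.MP_128e7d_lc.OrderFreeReductions
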